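import Mathlib

set_option autoImplicit false

/-!
# Graphs of every DP-chromatic number `k ≥ 4` that are not partially DP-nice

Let `G_k` be the join of an independent set `X` of size `k - 1` with the disjoint union of a complete
graph `A` on `k - 1` vertices and a single vertex `w`. The graph `G_k` has `2 k - 1` vertices, it is
`(k - 1)`-degenerate and contains `K_k`, so `χ_DP(G_k) = k`. It has a `(k - 1)`-fold cover in which at
most `2 k - 3` vertices can be coloured (identity matchings on `A ∪ X`, a Latin square between `X`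
and `w`), and `2 k - 3 < (k - 1) (2 k - 1) / k`.
-/

namespace Pool.Agent.Results.MP_a5c736_co.NotPartiallyNice

open SimpleGraph

/-- `(L, H)` is a cover of the graph `G`: the sets `L u` partition the vertices of `H` (they are
pairwise disjoint and exhaust `V(H)`), every `L u` is a clique of `H`, the edges between `L u` and
`L v` form a matching if `u v` is an edge of `G`, and there are none if `u`, `v` are distinct and not
adjacent. -/
structure IsCover {V W : Type} (G : SimpleGraph V) (L : V → Set W) (H : SimpleGraph W) : Prop where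
  disj : ∀ u v, u ≠ v → Disjoint (L u) (L v)
  exhaust : ∀ p, ∃ u, p ∈ L u
  clique : ∀ u, ∀ p ∈ L u, ∀ q ∈ L u, p ≠ q → H.Adj p q
  matching : ∀ u v, G.Adj u v → ∀ p ∈ L u, ∀ q ∈ L v, ∀ q' ∈ L v,
    H.Adj p q → H.Adj p q' → q = q'
  nonadj : ∀ u v, u ≠ v → ¬ G.Adj u v → ∀ p ∈ L u, ∀ q ∈ L v, ¬ H.Adj p q

/-- Every `m`-fold cover `(L, H)` of `G` has an `(L, H)`-colouring, i.e. an independent set of `H` of
size `|V(G)|`. -/
def DPColorable {V : Type} (G : SimpleGraph V) (m : ℕ) : Prop :=
  ∀ (W : Type) [Fintype W] (L : V → Set W) (H : SimpleGraph W), IsCover G L H →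
    (∀ u, (L u).ncard = m) → ∃ S : Set W, H.IsIndepSet S ∧ S.ncard = Nat.card V

/-- The DP-chromatic number. -/
noncomputable def chiDP {V : Type} (G : SimpleGraph V) : ℕ := sInf {m | DPColorable G m}

/-- The partial DP `t`-number: the least independence number of (the graph of) a `t`-fold cover. -/
noncomputable def alphaDP {V : Type} (G : SimpleGraph V) (t : ℕ) : ℕ :=
  sInf {a | ∃ (W : Type) (_ : Fintype W) (L : V → Set W) (H : SimpleGraph W),
    IsCover G L H ∧ (∀ u, (L u).ncard = t) ∧ H.indepNum = a}

/-- `G` is partially DP-nice: `α_t^DP(G) ≥ t |V(G)| / χ_DP(G)` for every `1 ≤ t ≤ χ_DP(G)`. -/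
def PartiallyDPNice {V : Type} [Fintype V] (G : SimpleGraph V) : Prop :=
  ∀ t : ℕ, 1 ≤ t → t ≤ chiDP G → (t : ℚ) * Fintype.card V / chiDP G ≤ alphaDP G t

/-! ### Greedy colouring of covers -/

theorem greedy {V W : Type} [Fintype V] [DecidableEq V] [Fintype W] {G : SimpleGraph V}
    [DecidableRel G.Adj]
    {L : V → Set W} {H : SimpleGraph W} (hc : IsCover G L H) (d : ℕ)
    (hL : ∀ u, (L u).ncard = d + 1) :
    ∀ (T : Finset V), (∀ T' ⊆ T, T'.Nonempty → ∃ v ∈ T', (T'.filter (G.Adj v)).card ≤ d) →
      ∃ c : V → W, (∀ v ∈ T, c v ∈ L v) ∧ ∀ u ∈ T, ∀ v ∈ T, u ≠ v → ¬ H.Adj (c u) (c v) := by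
  classical
  intro T
  induction T using Finset.strongInduction with
  | H T ih =>
    intro h
    by_cases hT : T.Nonempty
    · obtain ⟨v, hv, hd⟩ := h T (Finset.Subset.refl _) hT
      obtain ⟨c, hc1, hc2⟩ := ih (T.erase v) (Finset.erase_ssubset hv)
        (fun T' hT' => h T' (hT'.trans (Finset.erase_subset _ _)))
      -- forbidden elements of `L v`
      have key : ∃ p ∈ L v, ∀ u ∈ T.erase v, ¬ H.Adj (c u) p := by
        by_contra hcon
        push Not at hcon
        -- choose for each p a neighbour u
        have : Nonempty V := ⟨v⟩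
        choose! f hf1 hf2 using hcon
        have hmem : ∀ p ∈ L v, f p ∈ T.filter (G.Adj v) := by
          intro p hp
          have h1 := hf1 p hp
          rw [Finset.mem_erase] at h1
          rw [Finset.mem_filter]
          refine ⟨h1.2, ?_⟩
          by_contra hna
          exact hc.nonadj (f p) v h1.1 (fun h' => hna h'.symm) (c (f p))
            (hc1 _ (hf1 p hp)) p hp (hf2 p hp)
        have hinj : Set.InjOn f (L v) := by
          intro p hp q hq hpq
          have h1 := hmem p hp
          rw [Finset.mem_filter] at h1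
          have h2 := hf2 p hp
          have h3 := hf2 q hq
          rw [← hpq] at h3
          exact hc.matching (f p) v h1.2.symm (c (f p)) (hc1 _ (hf1 p hp)) p hp q hq h2 h3
        have hcard : (L v).ncard ≤ (T.filter (G.Adj v)).card := by
          rw [← Set.ncard_coe_finset]
          exact Set.ncard_le_ncard_of_injOn f (fun p hp => by
            exact_mod_cast hmem p hp) hinj (Finset.finite_toSet _)
        rw [hL] at hcard
        omega
      obtain ⟨p, hp, hp'⟩ := key
      refine ⟨Function.update c v p, ?_, ?_⟩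
      · intro u hu
        by_cases huv : u = v
        · subst huv
          simpa using hp
        · rw [Function.update_of_ne huv]
          exact hc1 u (Finset.mem_erase.2 ⟨huv, hu⟩)
      · intro u hu u' hu' huu'
        by_cases huv : u = v
        · subst huv
          rw [Function.update_self, Function.update_of_ne (Ne.symm huu')]
          intro h'
          exact hp' u' (Finset.mem_erase.2 ⟨Ne.symm huu', hu'⟩) h'.symm
        · rw [Function.update_of_ne huv]
          by_cases hu'v : u' = v
          · subst hu'v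
            rw [Function.update_self]
            exact hp' u (Finset.mem_erase.2 ⟨huv, hu⟩)
          · rw [Function.update_of_ne hu'v]
            exact hc2 u (Finset.mem_erase.2 ⟨huv, hu⟩) u' (Finset.mem_erase.2 ⟨hu'v, hu'⟩) huu'
    · rw [Finset.not_nonempty_iff_eq_empty] at hT
      subst hT
      by_cases hV : Nonempty V
      · obtain ⟨v0⟩ := hV
        have : (L v0).Nonempty := by
          rw [← Set.ncard_pos]
          rw [hL]
          omega
        obtain ⟨p, _⟩ := this
        exact ⟨fun _ => p, by simp, by simp⟩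
      · exact ⟨fun v => (hV ⟨v⟩).elim, by simp, by simp⟩

/-- Degenerate graphs are DP-colourable. -/
theorem dpColorable_of_degenerate {V : Type} [Fintype V] [DecidableEq V] (G : SimpleGraph V)
    [DecidableRel G.Adj] (d : ℕ)
    (h : ∀ T : Finset V, T.Nonempty → ∃ v ∈ T, (T.filter (G.Adj v)).card ≤ d) :
    DPColorable G (d + 1) := by
  intro W _ L H hc hL
  obtain ⟨c, hc1, hc2⟩ := greedy hc d hL Finset.univ (fun T' _ hT' => h T' hT')
  have hinj : Function.Injective c := by
    intro u v huv
    by_contra hne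
    have h1 := hc1 u (Finset.mem_univ _)
    have h2 := hc1 v (Finset.mem_univ _)
    rw [huv] at h1
    exact Set.disjoint_left.1 (hc.disj u v hne) h1 h2
  refine ⟨Set.range c, ?_, ?_⟩
  · rintro _ ⟨u, rfl⟩ _ ⟨v, rfl⟩ hne
    exact hc2 u (Finset.mem_univ _) v (Finset.mem_univ _) (fun h' => hne (by rw [h']))
  · rw [← Set.image_univ, Set.ncard_image_of_injective _ hinj, Set.ncard_univ]

/-! ### The identity cover and the lower bound -/

/-- If `G` is DP-colourable with `m` colours then it is properly `m`-colourable. -/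
theorem colorable_of_dpColorable {V : Type} [Fintype V] (G : SimpleGraph V) (m : ℕ)
    (h : DPColorable G m) : G.Colorable m := by
  classical
  let H : SimpleGraph (V × Fin m) :=
    { Adj := fun p q => (p.1 = q.1 ∧ p.2 ≠ q.2) ∨ (G.Adj p.1 q.1 ∧ p.2 = q.2)
      symm := ⟨by
        rintro p q (⟨h1, h2⟩ | ⟨h1, h2⟩)
        · exact Or.inl ⟨h1.symm, h2.symm⟩
        · exact Or.inr ⟨h1.symm, h2.symm⟩⟩
      loopless := ⟨by
        rintro p (⟨_, h2⟩ | ⟨h1, _⟩)
        · exact h2 rfl
        · exact h1.ne rfl⟩ }
  let L : V → Set (V × Fin m) := fun u => {p | p.1 = u}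
  have hcov : IsCover G L H := by
    refine ⟨?_, ?_, ?_, ?_, ?_⟩
    · intro u v huv
      rw [Set.disjoint_left]
      intro p hp hp'
      exact huv (hp.symm.trans hp')
    · intro p
      exact ⟨p.1, rfl⟩
    · intro u p hp q hq hne
      have hp1 : p.1 = u := hp
      have hq1 : q.1 = u := hq
      refine Or.inl ⟨hp1.trans hq1.symm, fun h2 => hne (Prod.ext (hp1.trans hq1.symm) h2)⟩
    · intro u v huv p hp q hq q' hq' h1 h2
      have hp1 : p.1 = u := hp
      have hq1 : q.1 = v := hq
      have hq1' : q'.1 = v := hq'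
      rcases h1 with ⟨h1, _⟩ | ⟨_, h1⟩
      · exact absurd (hp1.symm.trans (h1.trans hq1)) huv.ne
      · rcases h2 with ⟨h2, _⟩ | ⟨_, h2⟩
        · exact absurd (hp1.symm.trans (h2.trans hq1')) huv.ne
        · exact Prod.ext (hq1.trans hq1'.symm) (h1.symm.trans h2)
    · intro u v huv hna p hp q hq h1
      have hp1 : p.1 = u := hp
      have hq1 : q.1 = v := hq
      rcases h1 with ⟨h1, _⟩ | ⟨h1, _⟩
      · exact huv (hp1.symm.trans (h1.trans hq1))
      · rw [hp1, hq1] at h1
        exact hna h1
  have hfold : ∀ u, (L u).ncard = m := by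
    intro u
    have : L u = (fun i : Fin m => (u, i)) '' Set.univ := by
      ext p
      simp only [L, Set.mem_ofPred_eq, Set.image_univ, Set.mem_range]
      constructor
      · intro hp
        exact ⟨p.2, Prod.ext hp.symm rfl⟩
      · rintro ⟨i, rfl⟩
        rfl
    rw [this, Set.ncard_image_of_injective _ (fun i j hij => (Prod.ext_iff.1 hij).2),
      Set.ncard_univ, Nat.card_eq_fintype_card, Fintype.card_fin]
  obtain ⟨S, hS, hcard⟩ := h (V × Fin m) L H hcov hfold
  have hinj : Set.InjOn (Prod.fst : V × Fin m → V) S := by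
    intro p hp q hq hpq
    by_contra hne
    exact hS hp hq hne (Or.inl ⟨hpq, fun h2 => hne (Prod.ext hpq h2)⟩)
  have himg : Prod.fst '' S = (Set.univ : Set V) := by
    apply Set.eq_of_subset_of_ncard_le (Set.subset_univ _)
    rw [hinj.ncard_image, hcard, Set.ncard_univ]
  have hsur : ∀ v : V, ∃ i : Fin m, (v, i) ∈ S := by
    intro v
    have : v ∈ Prod.fst '' S := by rw [himg]; trivial
    obtain ⟨p, hp, rfl⟩ := this
    exact ⟨p.2, hp⟩
  choose c hc using hsur
  refine ⟨Coloring.mk c ?_⟩
  intro u v huv hcuv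
  exact hS (hc u) (hc v) (fun h' => huv.ne (Prod.ext_iff.1 h').1) (Or.inr ⟨huv, hcuv⟩)

/-! ### The graph -/

/-- The vertices: a clique `A`, an independent set `X` (both of size `n + 1`) and a vertex `w`. -/
abbrev Vert (n : ℕ) : Type := Fin (n + 1) ⊕ (Fin (n + 1) ⊕ Unit)

/-- The adjacency relation of the join of an independent set `X` with `K_{n+1} ∪ K_1`. -/
def adj (n : ℕ) : Vert n → Vert n → Prop
  | Sum.inl a, Sum.inl b => a ≠ b
  | Sum.inl _, Sum.inr (Sum.inl _) => True
  | Sum.inr (Sum.inl _), Sum.inl _ => True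
  | Sum.inr (Sum.inl _), Sum.inr (Sum.inr _) => True
  | Sum.inr (Sum.inr _), Sum.inr (Sum.inl _) => True
  | _, _ => False

/-- The graph `G_k`, `k = n + 2`. -/
def gr (n : ℕ) : SimpleGraph (Vert n) where
  Adj := adj n
  symm := ⟨by
    rintro (a | x | w) (b | y | w') h <;> simp_all [adj, eq_comm]⟩
  loopless := ⟨by
    rintro (a | x | w) h <;> simp_all [adj]⟩

/-- Which colour at one vertex is matched to which colour at the other one; the matchings of the
cover: identity between vertices of `A ∪ X`, the Latin square `(x, m) ↦ x + m` between `X` and `w`. -/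
def mat (n : ℕ) : Vert n → Vert n → Fin (n + 1) → Fin (n + 1) → Prop
  | Sum.inr (Sum.inl x), Sum.inr (Sum.inr _), m, m' => m' = x + m
  | Sum.inr (Sum.inr _), Sum.inr (Sum.inl x), m', m => m' = x + m
  | _, _, m, m' => m = m'

theorem mat_symm (n : ℕ) (u v : Vert n) (i j : Fin (n + 1)) (h : mat n u v i j) :
    mat n v u j i := by
  rcases u with (a | x | w) <;> rcases v with (b | y | w') <;> simp_all [mat]

theorem mat_inj (n : ℕ) (u v : Vert n) (i j j' : Fin (n + 1)) (h : mat n u v i j)
    (h' : mat n u v i j') : j = j' := by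
  rcases u with (a | x | w) <;> rcases v with (b | y | w') <;> simp_all [mat]

/-- The graph of the cover. -/
def cov (n : ℕ) : SimpleGraph (Vert n × Fin (n + 1)) where
  Adj p q := (p.1 = q.1 ∧ p.2 ≠ q.2) ∨ (adj n p.1 q.1 ∧ mat n p.1 q.1 p.2 q.2)
  symm := ⟨by
    rintro p q (⟨h1, h2⟩ | ⟨h1, h2⟩)
    · exact Or.inl ⟨h1.symm, h2.symm⟩
    · exact Or.inr ⟨(gr n).adj_symm h1, mat_symm n _ _ _ _ h2⟩⟩
  loopless := ⟨by
    rintro p (⟨_, h2⟩ | ⟨h1, _⟩)
    · exact h2 rfl
    · exact (gr n).ne_of_adj h1 rfl⟩

/-- The fibres of the cover. -/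
def fib (n : ℕ) (u : Vert n) : Set (Vert n × Fin (n + 1)) := {p | p.1 = u}

theorem isCover (n : ℕ) : IsCover (gr n) (fib n) (cov n) := by
  refine ⟨?_, ?_, ?_, ?_, ?_⟩
  · intro u v huv
    rw [Set.disjoint_left]
    intro p hp hp'
    exact huv (hp.symm.trans hp')
  · intro p
    exact ⟨p.1, rfl⟩
  · intro u p hp q hq hne
    have hp1 : p.1 = u := hp
    have hq1 : q.1 = u := hq
    refine Or.inl ⟨hp1.trans hq1.symm, fun h2 => hne (Prod.ext (hp1.trans hq1.symm) h2)⟩
  · intro u v huv p hp q hq q' hq' h1 h2
    have hp1 : p.1 = u := hp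
    have hq1 : q.1 = v := hq
    have hq1' : q'.1 = v := hq'
    rcases h1 with ⟨h1, _⟩ | ⟨_, h1⟩
    · exact absurd (hp1.symm.trans (h1.trans hq1)) huv.ne
    · rcases h2 with ⟨h2, _⟩ | ⟨_, h2⟩
      · exact absurd (hp1.symm.trans (h2.trans hq1')) huv.ne
      · rw [hq1] at h1
        rw [hq1'] at h2
        exact Prod.ext (hq1.trans hq1'.symm) (mat_inj n _ _ _ _ _ h1 h2)
  · intro u v huv hna p hp q hq h1
    have hp1 : p.1 = u := hp
    have hq1 : q.1 = v := hq
    rcases h1 with ⟨h1, _⟩ | ⟨h1, _⟩
    · exact huv (hp1.symm.trans (h1.trans hq1))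
    · rw [hp1, hq1] at h1
      exact hna h1

theorem fold (n : ℕ) (u : Vert n) : (fib n u).ncard = n + 1 := by
  have : fib n u = (fun i : Fin (n + 1) => (u, i)) '' Set.univ := by
    ext p
    simp only [fib, Set.mem_ofPred_eq, Set.image_univ, Set.mem_range]
    constructor
    · intro hp
      exact ⟨p.2, Prod.ext hp.symm rfl⟩
    · rintro ⟨i, rfl⟩
      rfl
  rw [this, Set.ncard_image_of_injective _ (fun i j hij => (Prod.ext_iff.1 hij).2),
    Set.ncard_univ, Nat.card_eq_fintype_card, Fintype.card_fin]

/-- In the cover, an independent set has at most `2 n + 1` elements. -/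
theorem indep_card (n : ℕ) (hn : 1 ≤ n) (S : Finset (Vert n × Fin (n + 1)))
    (hS : (cov n).IsIndepSet (S : Set (Vert n × Fin (n + 1)))) : S.card ≤ 2 * n + 1 := by
  classical
  by_contra hcon
  push Not at hcon
  have hinj : Set.InjOn (Prod.fst : Vert n × Fin (n + 1) → Vert n) (S : Set _) := by
    intro p hp q hq hpq
    by_contra hne
    exact hS hp hq hne (Or.inl ⟨hpq, fun h2 => hne (Prod.ext hpq h2)⟩)
  have himg : (S.image Prod.fst).card = S.card := Finset.card_image_of_injOn hinj
  have hcompl : (S.image Prod.fst)ᶜ.card ≤ 1 := by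
    rw [Finset.card_compl, himg]
    simp only [Fintype.card_sum, Fintype.card_fin, Fintype.card_unit]
    omega
  have hmiss : ∀ u v : Vert n, (∀ i, (u, i) ∉ S) → (∀ i, (v, i) ∉ S) → u = v := by
    intro u v hu hv
    rw [Finset.card_le_one] at hcompl
    apply hcompl
    · rw [Finset.mem_compl, Finset.mem_image]
      rintro ⟨p, hp, rfl⟩
      exact hu p.2 hp
    · rw [Finset.mem_compl, Finset.mem_image]
      rintro ⟨p, hp, rfl⟩
      exact hv p.2 hp
  have hadj : ∀ (u v : Vert n) (i j : Fin (n + 1)), adj n u v → mat n u v i j →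
      (u, i) ∈ S → (v, j) ∈ S → False := by
    intro u v i j h1 h2 h3 h4
    exact hS h3 h4 (fun h' => (gr n).ne_of_adj h1 (Prod.ext_iff.1 h').1) (Or.inr ⟨h1, h2⟩)
  by_cases hA : ∃ a : Fin (n + 1), ∀ i, (Sum.inl a, i) ∉ S
  · obtain ⟨a, ha⟩ := hA
    -- all other vertices are coloured
    have hx : ∀ x : Fin (n + 1), ∃ i, (Sum.inr (Sum.inl x), i) ∈ S := by
      intro x
      by_contra h
      push Not at h
      have := hmiss _ _ ha h
      simp at this
    have hw : ∃ i, (Sum.inr (Sum.inr ()), i) ∈ S := by
      by_contra h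
      push Not at h
      have := hmiss _ _ ha h
      simp at this
    have hb : ∀ b : Fin (n + 1), b ≠ a → ∃ i, (Sum.inl b, i) ∈ S := by
      intro b hb
      by_contra h
      push Not at h
      have := hmiss _ _ ha h
      simp at this
      exact hb this.symm
    choose g hg using hx
    obtain ⟨h, hh⟩ := hw
    choose! f hf using hb
    -- the colours of `A \ {a}` are distinct
    have hfinj : Set.InjOn f ((Finset.univ.erase a : Finset (Fin (n + 1))) : Set _) := by
      intro b hb b' hb' hbb'
      by_contra hne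
      have h1 : b ≠ a := by simpa using hb
      have h2 : b' ≠ a := by simpa using hb'
      exact hadj (Sum.inl b) (Sum.inl b') (f b) (f b') hne hbb' (hf b h1) (hf b' h2)
    have hfc : ((Finset.univ.erase a).image f)ᶜ.card = 1 := by
      rw [Finset.card_compl, Finset.card_image_of_injOn hfinj, Finset.card_erase_of_mem
        (Finset.mem_univ _), Finset.card_univ, Fintype.card_fin]
      omega
    obtain ⟨m, hm⟩ := Finset.card_eq_one.1 hfc
    have hgm : ∀ x, g x = m := by
      intro x
      have : g x ∈ ((Finset.univ.erase a).image f)ᶜ := by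
        rw [Finset.mem_compl, Finset.mem_image]
        rintro ⟨b, hb, hbx⟩
        have h1 : b ≠ a := by simpa using hb
        exact hadj (Sum.inl b) (Sum.inr (Sum.inl x)) (f b) (g x) trivial hbx (hf b h1) (hg x)
      rw [hm] at this
      simpa using this
    have h1 := hg (h - m)
    rw [hgm] at h1
    exact hadj (Sum.inr (Sum.inl (h - m))) (Sum.inr (Sum.inr ())) m h trivial
      (by simp [mat]) h1 hh
  · push Not at hA
    choose f hf using hA
    have hfinj : Function.Injective f := by
      intro b b' hbb'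
      by_contra hne
      exact hadj (Sum.inl b) (Sum.inl b') (f b) (f b') hne hbb' (hf b) (hf b')
    have hfsur : Function.Surjective f := Finite.surjective_of_injective hfinj
    -- some vertex of `X` is coloured
    have hx : ∃ x : Fin (n + 1), ∃ i, (Sum.inr (Sum.inl x), i) ∈ S := by
      by_contra h
      push Not at h
      have h01 := hmiss _ _ (h 0) (h (Fin.last n))
      simp only [Sum.inr.injEq, Sum.inl.injEq] at h01
      have := congrArg Fin.val h01
      simp at this
      omega
    obtain ⟨x, i, hxi⟩ := hx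
    obtain ⟨b, hb⟩ := hfsur i
    exact hadj (Sum.inl b) (Sum.inr (Sum.inl x)) (f b) i trivial hb (hf b) hxi

theorem alphaDP_le (n : ℕ) (hn : 1 ≤ n) : alphaDP (gr n) (n + 1) ≤ 2 * n + 1 := by
  have h1 : alphaDP (gr n) (n + 1) ≤ (cov n).indepNum :=
    Nat.sInf_le ⟨_, inferInstance, fib n, cov n, isCover n, fold n, rfl⟩
  refine h1.trans ?_
  obtain ⟨S, hS⟩ := (cov n).exists_isNIndepSet_indepNum
  rw [← hS.card_eq]
  exact indep_card n hn S hS.isIndepSet

theorem degenerate (n : ℕ) [DecidableRel (gr n).Adj] (T : Finset (Vert n)) (hT : T.Nonempty) :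
    ∃ v ∈ T, (T.filter ((gr n).Adj v)).card ≤ n + 1 := by
  classical
  by_cases hw : Sum.inr (Sum.inr ()) ∈ T
  · refine ⟨_, hw, ?_⟩
    have : T.filter ((gr n).Adj (Sum.inr (Sum.inr ()))) ⊆
        Finset.univ.image (fun x : Fin (n + 1) => (Sum.inr (Sum.inl x) : Vert n)) := by
      intro v hv
      rw [Finset.mem_filter] at hv
      rcases v with (b | y | w')
      · exact absurd hv.2 (by simp [gr, adj])
      · simp
      · exact absurd hv.2 (by simp [gr, adj])
    refine (Finset.card_le_card this).trans (Finset.card_image_le.trans ?_)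
    simp
  · by_cases hx : ∃ x : Fin (n + 1), Sum.inr (Sum.inl x) ∈ T
    · obtain ⟨x, hx⟩ := hx
      refine ⟨_, hx, ?_⟩
      have : T.filter ((gr n).Adj (Sum.inr (Sum.inl x))) ⊆
          Finset.univ.image (fun a : Fin (n + 1) => (Sum.inl a : Vert n)) := by
        intro v hv
        rw [Finset.mem_filter] at hv
        rcases v with (b | y | w')
        · simp
        · exact absurd hv.2 (by simp [gr, adj])
        · exact absurd hv.1 hw
      refine (Finset.card_le_card this).trans (Finset.card_image_le.trans ?_)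
      simp
    · obtain ⟨v, hv⟩ := hT
      refine ⟨v, hv, ?_⟩
      have : T.filter ((gr n).Adj v) ⊆
          Finset.univ.image (fun a : Fin (n + 1) => (Sum.inl a : Vert n)) := by
        intro v' hv'
        rw [Finset.mem_filter] at hv'
        rcases v' with (b | y | w')
        · simp
        · exact absurd ⟨y, hv'.1⟩ hx
        · exact absurd hv'.1 hw
      refine (Finset.card_le_card this).trans (Finset.card_image_le.trans ?_)
      simp

theorem not_colorable (n m : ℕ) (hm : m ≤ n + 1) : ¬ (gr n).Colorable m := by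
  rintro ⟨c⟩
  -- `A ∪ {x_0}` is a clique
  let f : Option (Fin (n + 1)) → Fin m := fun o =>
    match o with
    | some a => c (Sum.inl a)
    | none => c (Sum.inr (Sum.inl 0))
  have hf : Function.Injective f := by
    rintro (_ | a) (_ | b) h
    · rfl
    · exact absurd h (c.valid (v := Sum.inr (Sum.inl 0)) (w := Sum.inl b)
        (by simp [gr, adj]))
    · exact absurd h (c.valid (v := Sum.inl a) (w := Sum.inr (Sum.inl 0))
        (by simp [gr, adj]))
    · by_contra hne
      refine absurd h (c.valid (v := Sum.inl a) (w := Sum.inl b) ?_)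
      show a ≠ b
      intro hab
      exact hne (by rw [hab])
  have := Fintype.card_le_of_injective f hf
  simp at this
  omega

theorem chiDP_gr (n : ℕ) : chiDP (gr n) = n + 2 := by
  classical
  apply le_antisymm
  · exact Nat.sInf_le (dpColorable_of_degenerate (gr n) (n + 1) (degenerate n))
  · have hne : {m | DPColorable (gr n) m}.Nonempty :=
      ⟨_, dpColorable_of_degenerate (gr n) (n + 1) (degenerate n)⟩
    have hmem : DPColorable (gr n) (chiDP (gr n)) := Nat.sInf_mem hne
    by_contra hlt
    push Not at hlt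
    exact not_colorable n _ (by omega) (colorable_of_dpColorable _ _ hmem)

/-- For every `k ≥ 4` there is a finite simple graph with DP-chromatic number `k` that is not
partially DP-nice. -/
theorem result : ∀ k : ℕ, 4 ≤ k → ∃ (V : Type) (_ : Fintype V) (_ : Nonempty V)
    (G : SimpleGraph V), chiDP G = k ∧ ¬ PartiallyDPNice G := by
  intro k hk
  obtain ⟨n, rfl⟩ : ∃ n, k = n + 2 := ⟨k - 2, by omega⟩
  refine ⟨Vert n, inferInstance, inferInstance, gr n, chiDP_gr n, ?_⟩
  intro h
  have h1 := h (n + 1) (by omega) (by rw [chiDP_gr]; omega)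
  rw [chiDP_gr] at h1
  have h2 : (alphaDP (gr n) (n + 1) : ℚ) ≤ 2 * n + 1 := by
    exact_mod_cast alphaDP_le n (by omega)
  have h3 := h1.trans h2
  rw [div_le_iff₀ (by positivity)] at h3
  simp only [Fintype.card_sum, Fintype.card_fin, Fintype.card_unit] at h3
  push_cast at h3
  nlinarith

end Pool.Agent.Results.MP_a5c736_co.NotPartiallyNice
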